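import Pool.Agent.Q296.DP.Upper
import Pool.Agent.Q296.DP.Num

/-! # The increasing uniform distant pattern is not the most avoided one

For every `r` there are `m` and `q ∈ S_m` such that `|Av_n(dist_r(q))| > |Av_n(dist_r(12⋯m))|` for
all large `n`.  Here `q` is `k` copies of `1324` glued at common points, `m = 3k + 1`,
`k = 1000 · 2 ^ r`.

`Pool.Agent.Q296.DP.Contains r q π` : `π` contains `dist_r(q)`;
`Pool.Agent.Q296.DP.av r q n` : the number of `π ∈ S_n` avoiding `dist_r(q)`. -/

set_option autoImplicit false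

namespace Pool.Agent.Results.MP_52d9f3_co.IncreasingNotMaximal

open Pool.Agent.Q296.DP Filter Topology

/-- a word as a permutation -/
noncomputable def toPerm {n : ℕ} (l : List ℕ) (h : l.Perm (List.range n)) :
    Equiv.Perm (Fin n) :=
  Equiv.ofBijective (fun i : Fin n => (⟨l[(i : ℕ)]'(by
      rw [(perm_range_facts h).1]; exact i.2), by
      have := (perm_range_facts h).2.1 (l[(i : ℕ)]'(by rw [(perm_range_facts h).1]; exact i.2))
      exact this.1 (List.getElem_mem _)⟩ : Fin n))
    (Finite.injective_iff_bijective.1 (fun i j hij => by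
      have h1 := congrArg Fin.val hij
      simp only at h1
      exact Fin.ext ((perm_range_facts h).2.2.getElem_inj_iff.1 h1)))

lemma toPerm_apply {n : ℕ} (l : List ℕ) (h : l.Perm (List.range n)) (i : Fin n) :
    ((toPerm l h i : Fin n) : ℕ) = l[(i : ℕ)]'(by rw [(perm_range_facts h).1]; exact i.2) := rfl

lemma occ_of_contains {m n r : ℕ} {qL l : List ℕ} (hq : qL.Perm (List.range (m + 1)))
    (hl : l.Perm (List.range n)) (h : Contains r (toPerm qL hq) (toPerm l hl)) : Occ qL l := by
  classical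
  obtain ⟨i, h1, h2⟩ := h
  have hmono : StrictMono i := by
    rw [Fin.strictMono_iff_lt_succ]
    intro j
    have := h1 j.castSucc j.succ (by simp)
    rw [Fin.lt_def]; omega
  obtain ⟨q1, q2, q3⟩ := perm_range_facts hq
  obtain ⟨l1, l2, l3⟩ := perm_range_facts hl
  refine ⟨fun v => if hv : v < m + 1 then
    ((toPerm l hl (i ((toPerm qL hq).symm ⟨v, hv⟩)) : Fin n) : ℕ) else 0, ?_, ?_⟩
  · intro a ha b hb hab
    have ha' := (q2 a).1 ha
    have hb' := (q2 b).1 hb
    simp only
    rw [dif_pos ha', dif_pos hb', ← Fin.lt_def, ← h2, Equiv.apply_symm_apply,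
      Equiv.apply_symm_apply, Fin.lt_def]
    exact hab
  · rw [List.sublist_iff_exists_fin_orderEmbedding_get_eq]
    have hlen : (qL.map (fun v => if hv : v < m + 1 then
      ((toPerm l hl (i ((toPerm qL hq).symm ⟨v, hv⟩)) : Fin n) : ℕ) else 0)).length = m + 1 := by
      rw [List.length_map, q1]
    have hmono2 : StrictMono (fun j : Fin (qL.map (fun v => if hv : v < m + 1 then
      ((toPerm l hl (i ((toPerm qL hq).symm ⟨v, hv⟩)) : Fin n) : ℕ) else 0)).length =>
        Fin.cast l1.symm (i (Fin.cast hlen j))) := by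
      intro a b hab
      have : Fin.cast hlen a < Fin.cast hlen b := by
        rw [Fin.lt_def]; exact hab
      exact hmono this
    refine ⟨OrderEmbedding.ofStrictMono _ hmono2, fun j => ?_⟩
    simp only [OrderEmbedding.coe_ofStrictMono, List.get_eq_getElem, List.getElem_map,
      Fin.val_cast]
    have hj : (j : ℕ) < m + 1 := lt_of_lt_of_eq j.2 hlen
    have hjq : (j : ℕ) < qL.length := by rw [q1]; exact hj
    have hv : qL[(j : ℕ)] < m + 1 := (q2 _).1 (List.getElem_mem _)
    rw [dif_pos hv]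
    have e : (toPerm qL hq).symm ⟨qL[(j : ℕ)], hv⟩ = Fin.cast hlen j := by
      rw [Equiv.symm_apply_eq]
      apply Fin.ext
      rw [toPerm_apply]
      rfl
    rw [e, toPerm_apply]

lemma avL_le_av {m n r : ℕ} {qL : List ℕ} (hq : qL.Perm (List.range (m + 1))) :
    (avL qL n).card ≤ av r (toPerm qL hq) n := by
  classical
  have h1 : (avL qL n).card = Nat.card {l // l ∈ avL qL n} := by
    rw [Nat.card_eq_fintype_card, Fintype.card_coe]
  rw [h1]
  unfold av
  apply Nat.card_le_card_of_injective (fun l : {l // l ∈ avL qL n} =>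
    (⟨toPerm l.1 (mem_avL.1 l.2).1, fun h => (mem_avL.1 l.2).2 (occ_of_contains hq _ h)⟩ :
      {π : Equiv.Perm (Fin n) // ¬ Contains r (toPerm qL hq) π}))
  rintro ⟨l, hl⟩ ⟨l', hl'⟩ h
  have h2 := congrArg Subtype.val h
  simp only at h2
  apply Subtype.ext
  simp only
  have e1 := (perm_range_facts (mem_avL.1 hl).1).1
  have e2 := (perm_range_facts (mem_avL.1 hl').1).1
  apply List.ext_getElem (by rw [e1, e2])
  intro i hi hi'
  have h3 := congrArg Fin.val (congrArg (fun π : Equiv.Perm (Fin n) => π ⟨i, by omega⟩) h2)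
  simp only [toPerm_apply] at h3
  exact h3

/-- `k` glued copies of 1324 without the last letter -/
def Qs : ℕ → List ℕ
  | 0 => []
  | k + 1 => Qs k ++ [3 * k, 3 * k + 2, 3 * k + 1]

lemma Qs_perm : ∀ k, (Qs k).Perm (List.range (3 * k)) := by
  intro k
  induction k with
  | zero => simp [Qs]
  | succ k ih =>
    have e : List.range (3 * (k + 1)) = List.range (3 * k) ++ [3 * k, 3 * k + 1, 3 * k + 2] := by
      rw [show 3 * (k + 1) = 3 * k + 1 + 1 + 1 by ring, List.range_succ, List.range_succ,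
        List.range_succ]
      simp
    rw [e]
    simp only [Qs]
    exact ih.append (List.Perm.cons _ (List.Perm.swap _ _ _))

/-- `k` glued copies of 1324 -/
def Q (k : ℕ) : List ℕ := Qs k ++ [3 * k]

lemma Q_perm (k : ℕ) : (Q k).Perm (List.range (3 * k + 1)) := by
  rw [List.range_succ]
  exact (Qs_perm k).append_right _

lemma gr_shift {g : ℕ → ℕ} (hg : StrictMono g) {q : List ℕ} {a : ℝ} (h : Gr q a) :
    Gr (q.map g) a := by
  have e : ∀ n, avL (q.map g) n = avL q n := by
    intro n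
    ext l
    rw [mem_avL, mem_avL, Occ_shift hg]
  obtain ⟨c, hc, h2⟩ := h
  exact ⟨c, hc, fun n => by rw [e]; exact h2 n⟩

lemma gr_Q : ∀ k : ℕ, 1 ≤ k → Gr (Q k) (3004 / 1000 * k + 1 / 1000) := by
  intro k hk
  induction k, hk using Nat.le_induction with
  | base =>
    have e : Q 1 = [0, 2, 1, 3] := by simp [Q, Qs]
    rw [e]
    have := gr_1324
    norm_num at this ⊢
    exact this
  | succ k hk ih =>
    obtain ⟨s, hs⟩ : ∃ s, Qs k = 0 :: s := by
      clear ih
      induction k, hk using Nat.le_induction with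
      | base => exact ⟨[2, 1], by simp [Qs]⟩
      | succ k hk ih =>
        obtain ⟨s, hs⟩ := ih
        exact ⟨s ++ [3 * k, 3 * k + 2, 3 * k + 1], by simp only [Qs, hs, List.cons_append]⟩
    have e : Q (k + 1) = 0 :: s ++ 3 * k :: [3 * k + 2, 3 * k + 1, 3 * k + 3] := by
      simp only [Q, Qs, hs]
      simp
      ring
    have hsl : ∀ a ∈ 0 :: s, a < 3 * k := by
      intro a ha
      rw [← hs] at ha
      exact ((perm_range_facts (Qs_perm k)).2.1 a).1 ha
    have g2 : Gr (3 * k :: [3 * k + 2, 3 * k + 1, 3 * k + 3]) (3005 / 1000) := by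
      have h1 : StrictMono (fun i : ℕ => 3 * k + i) := fun a b h => by simp only; omega
      have := gr_shift h1 gr_1324
      simpa using this
    have ih' : Gr (0 :: s ++ [3 * k]) (3004 / 1000 * k + 1 / 1000) := by
      rw [← hs]; exact ih
    rw [e]
    apply gr_glue hsl (by simp) (a := 3004 / 1000 * k + 1 / 1000) (b := 3005 / 1000)
      (by positivity) (by norm_num) ?_ ?_ ih' g2
    · push_cast
      have : (0 : ℝ) ≤ k := Nat.cast_nonneg k
      linarith
    · push_cast
      linarith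

/-- the permutation `0 2 1 3 5 4 6 8 7 9 …`: copies of 1324 glued at common points -/
def glued (j : ℕ) : ℕ := if j % 3 = 1 then j + 1 else if j % 3 = 2 then j - 1 else j

lemma Qs_eq : ∀ k, Qs k = (List.range (3 * k)).map glued := by
  intro k
  induction k with
  | zero => simp [Qs]
  | succ k ih =>
    have e : List.range (3 * (k + 1)) = List.range (3 * k) ++ [3 * k, 3 * k + 1, 3 * k + 2] := by
      rw [show 3 * (k + 1) = 3 * k + 1 + 1 + 1 by ring, List.range_succ, List.range_succ,
        List.range_succ]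
      simp
    rw [e, List.map_append, ← ih]
    simp only [Qs, List.map_cons, List.map_nil]
    congr 1
    have h0 : glued (3 * k) = 3 * k := by
      unfold glued
      rw [if_neg (by omega), if_neg (by omega)]
    have h1 : glued (3 * k + 1) = 3 * k + 2 := by
      unfold glued
      rw [if_pos (by omega)]
    have h2 : glued (3 * k + 2) = 3 * k + 1 := by
      unfold glued
      rw [if_neg (by omega), if_pos (by omega)]
      omega
    rw [h0, h1, h2]

lemma Q_eq (k : ℕ) : Q k = (List.range (3 * k + 1)).map glued := by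
  unfold Q
  rw [List.range_succ, List.map_append, ← Qs_eq]
  congr 1
  simp only [List.map_cons, List.map_nil]
  congr 1
  unfold glued
  rw [if_neg (by omega), if_neg (by omega)]

/-- **Main theorem.** For every `r`, the pattern `q = 0 2 1 3 5 4 6 …` of length
`m = 3000 · 2 ^ r + 1` satisfies `|Av_n(dist_r(q))| > |Av_n(dist_r(12⋯m))|` for all large `n`; in
particular the proposed inequality is false. -/
theorem result :
    (∀ r : ℕ, ∃ q : Equiv.Perm (Fin (3 * (1000 * 2 ^ r) + 1)),
      (∀ j, (q j : ℕ) = glued j) ∧ ∃ n₀ : ℕ, ∀ n : ℕ, n₀ ≤ n →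
        av r (1 : Equiv.Perm (Fin (3 * (1000 * 2 ^ r) + 1))) n < av r q n) ∧
    ¬ ∀ m r : ℕ, 3 ≤ m → 1 ≤ r → ∃ n₀ : ℕ, ∀ n : ℕ, n₀ < n → ∀ q : Equiv.Perm (Fin m),
      av r q n ≤ av r (1 : Equiv.Perm (Fin m)) n := by
  have main : ∀ r : ℕ, ∃ q : Equiv.Perm (Fin (3 * (1000 * 2 ^ r) + 1)),
      (∀ j, (q j : ℕ) = glued j) ∧ ∃ n₀ : ℕ, ∀ n : ℕ, n₀ ≤ n →
        av r (1 : Equiv.Perm (Fin (3 * (1000 * 2 ^ r) + 1))) n < av r q n := by
    intro r
    obtain ⟨k, hk⟩ : ∃ k : ℕ, k = 1000 * 2 ^ r := ⟨_, rfl⟩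
    have hk1 : 1000 ≤ k := by
      rw [hk]
      have := Nat.one_le_two_pow (n := r)
      omega
    rw [← hk]
    refine ⟨toPerm (Q k) (Q_perm k), fun j => ?_, ?_⟩
    · rw [toPerm_apply]
      have h1 : (Q k)[(j : ℕ)]'(by rw [(perm_range_facts (Q_perm k)).1]; exact j.2) =
          ((List.range (3 * k + 1)).map glued)[(j : ℕ)]'(by
            rw [List.length_map, List.length_range]; exact j.2) := by
        congr 1
        exact Q_eq k
      rw [h1, List.getElem_map, List.getElem_range]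
    obtain ⟨c, hc, hg⟩ := gr_Q k (by omega)
    have hkr : (k : ℝ) = 1000 * 2 ^ r := by rw [hk]; push_cast; ring
    have hk0 : (1000 : ℝ) ≤ k := by exact_mod_cast hk1
    obtain ⟨D, hD⟩ : ∃ D : ℝ, D = 3 * k * (3 * k + 2 ^ r) := ⟨_, rfl⟩
    have hD0 : 0 < D := by rw [hD]; positivity
    have hlt : D < (3004 / 1000 * (k : ℝ) + 1 / 1000) ^ 2 := by
      have h2 : (2 : ℝ) ^ r = k / 1000 := by rw [hkr]; ring
      rw [hD, h2]
      nlinarith
    have hr : 1 < (3004 / 1000 * (k : ℝ) + 1 / 1000) ^ 2 / D := by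
      rw [one_lt_div hD0]; exact hlt
    have hlim := tendsto_pow_atTop_atTop_of_one_lt hr
    obtain ⟨n₀, hn₀⟩ := eventually_atTop.1 (hlim.eventually_gt_atTop (1 / c))
    refine ⟨n₀, fun n hn => ?_⟩
    have h1 := hn₀ n hn
    have hu : (av r (1 : Equiv.Perm (Fin (3 * k + 1))) n : ℝ) ≤ D ^ n := by
      have := av_le n r (3 * k)
      have h2 : ((av r (1 : Equiv.Perm (Fin (3 * k + 1))) n : ℕ) : ℝ) ≤
        (((3 * k * (3 * k + 2 ^ r)) ^ n : ℕ) : ℝ) := by exact_mod_cast this
      refine h2.trans (le_of_eq ?_)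
      rw [hD]; push_cast; ring
    have hl : c * ((3004 / 1000 * (k : ℝ) + 1 / 1000) ^ 2) ^ n ≤
        (av r (toPerm (Q k) (Q_perm k)) n : ℝ) := by
      refine (hg n).trans ?_
      exact_mod_cast avL_le_av (r := r) (n := n) (Q_perm k)
    have h3 : D ^ n < c * ((3004 / 1000 * (k : ℝ) + 1 / 1000) ^ 2) ^ n := by
      rw [div_pow, div_lt_div_iff₀ hc (by positivity)] at h1
      linarith
    have h4 : (av r (1 : Equiv.Perm (Fin (3 * k + 1))) n : ℝ) <
        (av r (toPerm (Q k) (Q_perm k)) n : ℝ) := by linarith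
    exact_mod_cast h4
  refine ⟨main, fun h => ?_⟩
  obtain ⟨q, -, n₀, hq⟩ := main 1
  obtain ⟨n₁, hn₁⟩ := h (3 * (1000 * 2 ^ 1) + 1) 1 (by norm_num) le_rfl
  have h1 := hq (max n₀ (n₁ + 1)) (le_max_left _ _)
  have h2 := hn₁ (max n₀ (n₁ + 1)) (lt_of_lt_of_le (Nat.lt_succ_self _) (le_max_right _ _)) q
  exact absurd h1 (not_lt.2 h2)

end Pool.Agent.Results.MP_52d9f3_co.IncreasingNotMaximal
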